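import Pool.Agent.Q234.SY

/-!
# Almost all constants: `p_{kn} ^ 2 + c` prime, the right order of magnitude

Q1 asks, for every `n`, for a `k`, `1 ≤ k ≤ n`, such that `2k + 1` and `p_{kn} ^ 2 - 2` are primes. Here the
constant `-2` is replaced by almost all constants `c`, or by vectors of constants. Let `a` be any positive
integer; it plays the role of `k` (with `2 a + 1` prime, and `m ≥ a` the role of `n`), or the role of `n`. For all
vectors `(c_1, …, c_r)` of positive integers up to `B x ^ 2` without a local obstruction, except for an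
arbitrarily small proportion `κ x ^ (2 r)`, there are at least `δ x / (log x) ^ (r + 1)` integers `m ≥ a` with
`p_{am} ≤ x` (the expected order of magnitude) such that all the numbers `p_{am} ^ 2 + c_j` are primes.

The proof uses the theorem of the starting files on sets of primes which are dense in most residue classes
(`Pool.Agent.TH882.KS.sys_most`), and that the primes with indices in a syndetic set are such a set
(`Pool.Agent.TH882.HY.IS_most`, from the Maynard-Tao theorem).
-/

set_option autoImplicit false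

open Finset Filter Topology

namespace Pool.Agent.Results.MP_c971ef_nt.AlmostAllConstants

/-- The `m`-th prime: `p 1 = 2`, `p 2 = 3`. -/
noncomputable def p (m : ℕ) : ℕ := Nat.nth Nat.Prime (m - 1)

/-- No local obstruction: for every prime `l` there is an integer `x` such that `l` divides neither `x` nor any
`x ^ 2 + c_j`. -/
def Admissible {r : ℕ} (c : Fin r → ℕ) : Prop :=
  ∀ l : ℕ, l.Prime → ∃ x : ℤ, ¬ (l : ℤ) ∣ x ∧ ∀ j, ¬ (l : ℤ) ∣ x ^ 2 + c j

/-- The `m ≥ a` with `p_{am} ≤ x` for which all the numbers `p_{am} ^ 2 + c_j` are prime. -/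
def good {r : ℕ} (a : ℕ) (c : Fin r → ℕ) (x : ℕ) : Set ℕ :=
  {m : ℕ | a ≤ m ∧ p (a * m) ≤ x ∧ ∀ j, (p (a * m) ^ 2 + c j).Prime}

/-- The admissible vectors `c` of integers `1 ≤ c_j ≤ B x ^ 2` with fewer than `δ x / (log x) ^ (r + 1)` such
`m`. -/
def exceptions (r a B : ℕ) (δ : ℝ) (x : ℕ) : Set (Fin r → ℕ) :=
  {c : Fin r → ℕ | (∀ j, 1 ≤ c j ∧ c j ≤ B * x ^ 2) ∧ Admissible c ∧
    ((good a c x).ncard : ℝ) < δ * (x / Real.log x ^ (r + 1))}

theorem good_finite {r : ℕ} (a : ℕ) (ha : 1 ≤ a) (c : Fin r → ℕ) (x : ℕ) : (good a c x).Finite := by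
  apply (Finset.finite_toSet (Finset.range (x + 1))).subset
  rintro j ⟨h1, h2, -⟩
  rw [Finset.mem_coe, Finset.mem_range]
  unfold p at h2
  have e1 := Nat.add_two_le_nth_prime (a * j - 1)
  have e2 : 1 * j ≤ a * j := Nat.mul_le_mul_right j ha
  omega

/-- **Almost all constants.** -/
theorem result (r a B : ℕ) (ha : 1 ≤ a) (κ : ℝ) (hκ : 0 < κ) : ∃ δ : ℝ, 0 < δ ∧
    ∀ᶠ x : ℕ in atTop, ((exceptions r a B δ x).ncard : ℝ) ≤ κ * ((x : ℝ) ^ 2) ^ r := by
  classical
  obtain ⟨c, hc, x₀, h⟩ := Pool.Agent.Q234.SY.synd a ha (Pool.Agent.Q234.SY.mul a)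
    (Pool.Agent.Q234.SY.syn_mul a ha) (fun _ : Fin r => (Polynomial.X ^ 2 : Polynomial ℤ))
    (fun _ => by rw [Polynomial.natDegree_X_pow]; norm_num)
    (fun _ => by rw [Polynomial.leadingCoeff_X_pow]; norm_num) B κ hκ
  obtain ⟨x₁, hx₁⟩ := Pool.Agent.H373R2.T7.ev_log' (r + 1) (2 * a / c)
  obtain ⟨x₂, hx₂⟩ := Pool.Agent.H373R2.T7.ev_L' 1
  refine ⟨c / 2, by positivity, ?_⟩
  filter_upwards [eventually_ge_atTop (max x₀ (max x₁ (max x₂ 1)))] with x hx
  have b0 : x₀ ≤ x := le_trans (le_max_left _ _) hx
  have b1 : x₁ ≤ x := le_trans (le_trans (le_max_left _ _) (le_max_right _ _)) hx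
  have b2 : x₂ ≤ x := le_trans (le_trans (le_trans (le_max_left _ _) (le_max_right _ _)) (le_max_right _ _)) hx
  have b3 : 1 ≤ x := le_trans (le_trans (le_trans (le_max_right _ _) (le_max_right _ _)) (le_max_right _ _)) hx
  -- the small `m` are negligible
  have hev : (a : ℝ) ≤ c / 2 * (x / Real.log x ^ (r + 1)) := by
    have h1 := hx₁ x b1
    have h2 := hx₂ x b2
    have hxr : (1 : ℝ) ≤ x := by exact_mod_cast b3
    have h3 : √(x : ℝ) ≤ x := by
      have e1 : √(x : ℝ) * √(x : ℝ) = x := Real.mul_self_sqrt (by linarith)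
      have e2 : 1 ≤ √(x : ℝ) := by rw [← Real.sqrt_one]; exact Real.sqrt_le_sqrt hxr
      nlinarith
    have h4 : 0 < Real.log x ^ (r + 1) := pow_pos (by linarith) _
    have h5 : 2 * (a : ℝ) / c * Real.log x ^ (r + 1) ≤ x := h1.trans h3
    rw [mul_div_assoc', le_div_iff₀ h4]
    rw [div_mul_eq_mul_div, div_le_iff₀ hc] at h5
    linarith
  have h1 := h x b0
  simp only [Polynomial.natDegree_X_pow, prod_const, card_univ, Fintype.card_fin] at h1
  refine le_trans ?_ h1
  rw [← Set.ncard_coe_finset]
  apply Nat.cast_le.2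
  apply Set.ncard_le_ncard
  · rintro k ⟨hk1, hk2, hk3⟩
    rw [mem_coe, mem_filter, Fintype.mem_piFinset]
    refine ⟨fun j => mem_Icc.2 (hk1 j), ?_, ?_⟩
    · intro l hl
      obtain ⟨y, hy1, hy2⟩ := hk2 l hl
      refine ⟨y, hy1, fun j => ?_⟩
      rw [Polynomial.eval_pow, Polynomial.eval_X, one_mul, add_comm]
      exact hy2 j
    · have hcard : (Pool.Agent.Q234.SY.goodI (Pool.Agent.Q234.SY.mul a) (fun _ : Fin r => (Polynomial.X ^ 2 : Polynomial ℤ)) k x).card ≤
          (good a k x).ncard + a := by
        have hfin := good_finite a ha k x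
        have h6 : (good a k x).ncard + a = (hfin.toFinset).card + (range a).card := by
          rw [Set.ncard_eq_toFinset_card _ hfin, card_range]
        rw [h6]
        refine le_trans ?_ (card_union_le _ _)
        apply card_le_card_of_injOn (fun m => m / a)
        · intro m hm
          unfold Pool.Agent.Q234.SY.goodI at hm
          rw [mem_coe, mem_filter, mem_Icc] at hm
          obtain ⟨⟨hm1, hm2⟩, hm3, hm4, hm5⟩ := hm
          have hmn : a * (m / a) = m := Nat.mul_div_cancel' hm3
          rw [mem_coe, mem_union, Set.Finite.mem_toFinset, mem_range]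
          by_cases hlt : m / a < a
          · exact Or.inr hlt
          · left
            refine ⟨not_lt.1 hlt, ?_, ?_⟩
            · show p (a * (m / a)) ≤ x
              rw [hmn]
              exact hm4
            · intro j
              show (p (a * (m / a)) ^ 2 + k j).Prime
              rw [hmn]
              have e1 := hm5 j
              rw [Polynomial.eval_pow, Polynomial.eval_X] at e1
              have e2 : ((k j : ℤ) + (Pool.Agent.Q234.SY.pn m : ℤ) ^ 2).toNat = p m ^ 2 + k j := by
                have e3 : (k j : ℤ) + (Pool.Agent.Q234.SY.pn m : ℤ) ^ 2 = ((p m ^ 2 + k j : ℕ) : ℤ) := by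
                  unfold p Pool.Agent.Q234.SY.pn
                  push_cast
                  ring
                rw [e3, Int.toNat_natCast]
              rwa [e2] at e1
        · intro m hm m' hm' heq
          unfold Pool.Agent.Q234.SY.goodI at hm hm'
          rw [mem_coe, mem_filter] at hm hm'
          have e1 : a * (m / a) = m := Nat.mul_div_cancel' hm.2.1
          have e2 : a * (m' / a) = m' := Nat.mul_div_cancel' hm'.2.1
          simp only at heq
          rw [← e1, ← e2, heq]
      have hcard' : ((Pool.Agent.Q234.SY.goodI (Pool.Agent.Q234.SY.mul a) (fun _ : Fin r => (Polynomial.X ^ 2 : Polynomial ℤ)) k x).card : ℝ) ≤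
          ((good a k x).ncard : ℝ) + a := by exact_mod_cast hcard
      linarith
  · exact Finset.finite_toSet _

end Pool.Agent.Results.MP_c971ef_nt.AlmostAllConstants
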