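import Pool.Agent.Q234.StM

/-!
# Simultaneously prime values `p_{kn} ^ 2 + h` for dense sets of `n` and of `k`

Q1 asks, for every `n`, for a `k`, `1 ≤ k ≤ n`, such that `2k + 1` and `p_{kn} ^ 2 - 2` are primes. The
constant `-2` is replaced here by almost all multiples `h` of a small primorial `M`, the product of the
primes up to `y`, where `y` is of the order of magnitude `log log x`, so that `M` is a power of `log x`.

Part 1: let `k_1, …, k_r` be at most `log ^ B x`, with `2 k_i + 1` prime, and let `S` be ANY set of at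
least `x / log ^ A x` integers `n` between `log ^ B x` and `x` (so that `k_i ≤ n`). For almost all vectors
`(h_1, …, h_r)` ALL the `k_i` have the required property for the expected number of the elements `n` of
`S`: all the numbers `p_{k_i n} ^ 2 + h_i` are primes.

Part 2: let `n_1, …, n_r` be at most `log ^ B x`, and let `S` be ANY set of at least `x / log ^ A x`
integers `k ≤ x` with `2 k + 1` prime. For almost all vectors `(h_1, …, h_r)` the expected number of the
elements `k` of `S` have the required property for ALL the `n_i`.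
-/

set_option autoImplicit false

open Finset

namespace Pool.Agent.Results.MP_c971ef_nt.DenseSets

/-- The `m`-th prime: `p 1 = 2`, `p 2 = 3`. -/
noncomputable def p (m : ℕ) : ℕ := Nat.nth Nat.Prime (m - 1)

/-- The product of `1 - 1/q` over the primes `q ≤ y`. -/
noncomputable def V (y : ℕ) : ℝ := ∏ q ∈ (Icc 1 y).filter Nat.Prime, (1 - 1 / (q : ℝ))

open Classical in
/-- The elements `n` of `S` for which for all `i` one has `k_i ≤ n`, `2 k_i + 1` is prime and
`p_{k_i n} ^ 2 + h_i` is prime. -/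
noncomputable def goodN {r : ℕ} (S : Finset ℕ) (k h : Fin r → ℕ) : Finset ℕ :=
  S.filter (fun n => ∀ i, k i ≤ n ∧ (2 * k i + 1).Prime ∧ (p (k i * n) ^ 2 + h i).Prime)

open Classical in
/-- The elements `k` of `S` for which `2 k + 1` is prime and all the numbers `p_{k n_i} ^ 2 + h_i` are
prime. -/
noncomputable def goodK {r : ℕ} (S : Finset ℕ) (n h : Fin r → ℕ) : Finset ℕ :=
  S.filter (fun k => (2 * k + 1).Prime ∧ ∀ i, (p (k * n i) ^ 2 + h i).Prime)

/-- The window `(g₀ i, g₀ i + G i]` is admissible for `x`: with `M` the product of the primes `≤ y`,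
`M (g₀ i + G i) ≤ x ^ 2` and `M (G i) ≥ x ^ 2 / log ^ C x`. -/
def Window {r : ℕ} (C x y : ℕ) (g₀ G : Fin r → ℕ) : Prop :=
  ∀ i, primorial y * (g₀ i + G i) ≤ x ^ 2 ∧ (x : ℝ) ^ 2 ≤ primorial y * G i * Real.log x ^ C

/-- **Dense sets of `n` and dense sets of `k`.** -/
theorem result : ∀ (r A B C : ℕ) (ε : ℝ), 0 < ε → ε ≤ 1 → ∃ K₀ : ℕ, ∀ K₁ : ℕ, ∃ x₀ : ℕ, ∀ x : ℕ, x₀ ≤ x →
    ∀ y : ℕ, K₀ * Real.log (Real.log x) ≤ y → y ≤ K₁ * Real.log (Real.log x) →
    ∀ g₀ G : Fin r → ℕ, Window C x y g₀ G →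
    (∀ k : Fin r → ℕ, (∀ i, 1 ≤ k i ∧ (k i : ℝ) ≤ Real.log x ^ B ∧ (2 * k i + 1).Prime) →
      ∀ S : Finset ℕ, S ⊆ Icc 1 x → (∀ n ∈ S, Real.log x ^ B ≤ n) → (x : ℝ) ≤ S.card * Real.log x ^ A →
      (((Fintype.piFinset fun i => Icc 1 (G i)).filter (fun g =>
        ((goodN S k (fun i => primorial y * (g₀ i + g i))).card : ℝ) <
        (1 - ε) * (S.card / (2 * V y * Real.log x) ^ r))).card : ℝ) ≤ ε * ∏ i, (G i : ℝ)) ∧
    (∀ n : Fin r → ℕ, (∀ i, 1 ≤ n i ∧ (n i : ℝ) ≤ Real.log x ^ B) →
      ∀ S : Finset ℕ, S ⊆ Icc 1 x → (∀ k ∈ S, (2 * k + 1).Prime) → (x : ℝ) ≤ S.card * Real.log x ^ A →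
      (((Fintype.piFinset fun i => Icc 1 (G i)).filter (fun g =>
        ((goodK S n (fun i => primorial y * (g₀ i + g i))).card : ℝ) <
        (1 - ε) * (S.card / (2 * V y * Real.log x) ^ r))).card : ℝ) ≤ ε * ∏ i, (G i : ℝ)) := by
  classical
  intro r A B C ε hε hε1
  obtain ⟨K₀, hK₀⟩ := Pool.Agent.Q234.StR.mult 2 (Or.inr rfl) r A B C ε hε hε1
  refine ⟨K₀, fun K₁ => ?_⟩
  obtain ⟨x₀, hx₀⟩ := hK₀ K₁
  refine ⟨x₀, fun x hx y hy1 hy2 g₀ G hW => ⟨fun k hk S hS hSB hSA => ?_, fun n hn S hS hSp hSA => ?_⟩⟩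
  · refine le_trans ?_ (hx₀ x hx y hy1 hy2 S hS hSA k (fun i => (hk i).1) (fun i => (hk i).2.1) g₀ G
      (fun i => (hW i).1) (fun i => (hW i).2))
    apply Nat.cast_le.2
    apply card_le_card
    intro g hg
    rw [mem_filter] at hg ⊢
    refine ⟨hg.1, ?_⟩
    have h1 : S.filter (fun j => ∀ i, (Pool.Agent.Q234.StR.pn (k i * j) ^ 2 + primorial y * (g₀ i + g i)).Prime) =
        goodN S k (fun i => primorial y * (g₀ i + g i)) := by
      unfold goodN
      apply filter_congr
      intro m hm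
      constructor
      · intro h i
        refine ⟨?_, (hk i).2.2, h i⟩
        have h2 : (k i : ℝ) ≤ m := (hk i).2.1.trans (hSB m hm)
        exact_mod_cast h2
      · intro h i
        exact (h i).2.2
    rw [h1]
    exact hg.2
  · refine le_trans ?_ (hx₀ x hx y hy1 hy2 S hS hSA n (fun i => (hn i).1) (fun i => (hn i).2) g₀ G
      (fun i => (hW i).1) (fun i => (hW i).2))
    apply Nat.cast_le.2
    apply card_le_card
    intro g hg
    rw [mem_filter] at hg ⊢
    refine ⟨hg.1, ?_⟩
    have h1 : S.filter (fun j => ∀ i, (Pool.Agent.Q234.StR.pn (n i * j) ^ 2 + primorial y * (g₀ i + g i)).Prime) =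
        goodK S n (fun i => primorial y * (g₀ i + g i)) := by
      unfold goodK
      apply filter_congr
      intro m hm
      constructor
      · intro h
        refine ⟨hSp m hm, fun i => ?_⟩
        have := h i
        rw [mul_comm (n i) m] at this
        exact this
      · intro h i
        have := h.2 i
        rw [mul_comm m (n i)] at this
        exact this
    rw [h1]
    exact hg.2

end Pool.Agent.Results.MP_c971ef_nt.DenseSets
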