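import Pool.Agent.Q55.SqRough
import Pool.Agent.Q55.IdxMult

/-!
# The least `k` for which `p_{kn}² - 2` is prime

For almost all `n` every `k ≥ 1` for which `p_{kn}² - 2` is prime, or has no prime factor below a small power of
`p_{kn}`, is larger than `(log n)^(1 - η)`.
-/

set_option autoImplicit false

open Finset Filter

namespace Pool.Agent.Results.MP_c971ef_nt.LeastMultiplier

/-- the `j`-th prime, `p 1 = 2` -/
noncomputable def p (j : ℕ) : ℕ := Nat.nth Nat.Prime (j - 1)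

/-- `q ^ 2 - 2` has no prime factor `l ≤ q ^ (1 / s)` -/
def Rough (s q : ℕ) : Prop := ∀ l : ℕ, l.Prime → l ∣ q ^ 2 - 2 → q < l ^ s

theorem rough_of_prime {s q : ℕ} (hs : 2 ≤ s) (hq : q.Prime) (h : (q ^ 2 - 2).Prime) : Rough s q := by
  intro l hl hd
  rw [(Nat.prime_dvd_prime_iff_eq hl h).1 hd]
  have h2 := hq.two_le
  have h3 : q ≤ q ^ 2 - 2 := by
    have : q + 2 ≤ q ^ 2 := by nlinarith
    omega
  calc q ≤ q ^ 2 - 2 := h3
    _ = (q ^ 2 - 2) ^ 1 := (pow_one _).symm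
    _ < (q ^ 2 - 2) ^ s := Nat.pow_lt_pow_right h.one_lt (by omega)

/-- **Theorem.** Let `s ≥ 2`, `0 < η < 1`, `ε > 0`. For all large `X` and all `n ≤ X` with at most `ε X` exceptions:
every `k ≥ 1` for which `p_{kn}² - 2` has no prime factor up to `p_{kn} ^ (1 / s)` satisfies `k > (log X) ^ (1 - η)`;
in particular this holds for every `k ≥ 1` for which `p_{kn}² - 2` is prime. -/
theorem result :
    (∀ s : ℕ, 2 ≤ s → ∀ η : ℝ, 0 < η → η < 1 → ∀ ε : ℝ, 0 < ε → ∀ᶠ X : ℕ in atTop,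
      (Set.ncard {n : ℕ | 1 ≤ n ∧ n ≤ X ∧
        ¬ ∀ k : ℕ, 1 ≤ k → Rough s (p (k * n)) → Real.log X ^ (1 - η) < k} : ℝ) ≤ ε * X) ∧
    ∀ s : ℕ, 2 ≤ s → ∀ j : ℕ, (p j ^ 2 - 2).Prime → Rough s (p j) := by
  refine ⟨fun s hs η hη hη1 ε hε => ?_, fun s hs j hj => rough_of_prime hs (Nat.prime_nth_prime _) hj⟩
  have hthin := Pool.Agent.Q55.SqRough.thin s (by omega)
  have hfew : Pool.Agent.TH685.Gen.Few (fun j => Rough s (p j)) := Pool.Agent.TH685.Gen.few_of_thin _ hthin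
  filter_upwards [Pool.Agent.Q55.IdxMult.main _ hfew 1 le_rfl η hη hη1 ε hε] with X hX
  refine le_trans ?_ hX
  have hsub : {n : ℕ | 1 ≤ n ∧ n ≤ X ∧ ¬ ∀ k : ℕ, 1 ≤ k → Rough s (p (k * n)) → Real.log X ^ (1 - η) < k} ⊆
      {n : ℕ | 1 ≤ n ∧ n ≤ X ∧ ∃ k : ℕ, 1 ≤ k ∧ (k : ℝ) ^ 1 ≤ Real.log X ^ (1 - η) ∧ Rough s (p (k ^ 1 * n))} := by
    rintro n ⟨h1, h2, h3⟩
    push Not at h3
    obtain ⟨k, hk, hR, hle⟩ := h3
    exact ⟨h1, h2, k, hk, by rwa [pow_one], by rwa [pow_one]⟩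
  have hfin : {n : ℕ | 1 ≤ n ∧ n ≤ X ∧ ∃ k : ℕ, 1 ≤ k ∧ (k : ℝ) ^ 1 ≤ Real.log X ^ (1 - η) ∧
      Rough s (p (k ^ 1 * n))}.Finite :=
    (Set.finite_Iic X).subset (fun n hn => hn.2.1)
  exact_mod_cast Set.ncard_le_ncard hsub hfin

end Pool.Agent.Results.MP_c971ef_nt.LeastMultiplier
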